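import Pool.Agent.Work.MP_0f1f76_lc.Fast.Avail

/-!
# Fast evaluation of tensor powers of a matrix over a finite extension of `F_2`
-/

namespace Pool.Agent.OMV.Rect

open Finset

section Gen

variable {E : Type*} {w S : ℕ} {tab : E → Fin S → Word w → Word w}
  {init : E → List (Word w)} {n0 : ℕ}

theorem iUnion' (hn : ∀ e, (init e).length = n0) {A : Set (E → Word w)} {N : ℕ} {ι : Type*}
    [Fintype ι] {B : ι → Set (E → Word w)} (h : ∀ i, Cost tab init n0 A (B i) N) :
    Cost tab init n0 A (⋃ i, B i) (Fintype.card ι * N) := by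
  have h1 := Cost.iUnion (k := Fintype.card ι) hn (B := fun k => B ((Fintype.equivFin ι).symm k))
    (fun k => h _)
  refine h1.mono hn (subset_refl _) ?_
  intro x hx
  rw [Set.mem_iUnion] at hx ⊢
  obtain ⟨i, hi⟩ := hx
  exact ⟨Fintype.equivFin ι i, by rwa [Equiv.symm_apply_apply]⟩

theorem sum' (hn : ∀ e, (init e).length = n0) {A : Set (E → Word w)} {N : ℕ} {ι : Type*}
    [Fintype ι] (h0 : (0 : E → Word w) ∈ A) {f : ι → E → Word w}
    (h : ∀ i, Cost tab init n0 A {f i} N) :
    Cost tab init n0 A {∑ i, f i} (Fintype.card ι * (N + 1)) := by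
  have h1 := Cost.sum (k := Fintype.card ι) hn h0 (f := fun k => f ((Fintype.equivFin ι).symm k))
    (fun k => h _)
  rwa [Equiv.sum_comp (Fintype.equivFin ι).symm f] at h1

end Gen

section Field

variable {E : Type*} {w S : ℕ} {tab : E → Fin S → Word w → Word w}
  {init : E → List (Word w)} {n0 : ℕ}
  {F : Type*} [Field F] [Module (ZMod 2) F] {d : ℕ} (c : F ≃ₗ[ZMod 2] (Fin d → ZMod 2))

/-- The bits of a function with values in `F^w`. -/
def bit (y : E → Fin w → F) (a : Fin d) : E → Word w := fun ε j => c (y ε j) a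

/-- all bits -/
def bits (y : E → Fin w → F) : Set (E → Word w) := ⋃ a, {bit c y a}

theorem mem_bits (y : E → Fin w → F) (a : Fin d) : bit c y a ∈ bits c y :=
  Set.mem_iUnion.2 ⟨a, rfl⟩

/-- the bits of a multiple -/
theorem bit_mul [SMulCommClass (ZMod 2) F F] (l : F) (y : E → Fin w → F) (a : Fin d) :
    bit c (fun ε j => l * y ε j) a =
      ∑ b : Fin d, (c (l * c.symm (Pi.single b 1)) a) • bit c y b := by
  funext ε j
  have h1 : y ε j = ∑ b, (c (y ε j) b) • c.symm (Pi.single b 1) := by
    have h2 : c.symm (∑ b, Pi.single b (c (y ε j) b)) = y ε j := by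
      rw [Finset.univ_sum_single, LinearEquiv.symm_apply_apply]
    refine h2.symm.trans ?_
    rw [map_sum]
    refine sum_congr rfl (fun b _ => ?_)
    rw [← map_smul]
    congr 1
    rw [← Pi.single_smul]
    simp
  simp only [bit, Finset.sum_apply, Pi.smul_apply, smul_eq_mul]
  conv_lhs => rw [h1]
  rw [mul_sum, map_sum, Finset.sum_apply]
  refine sum_congr rfl (fun b _ => ?_)
  rw [mul_smul_comm, map_smul, Pi.smul_apply, smul_eq_mul, mul_comm]

/-- Linear combinations. -/
theorem comb [SMulCommClass (ZMod 2) F F] (hn : ∀ e, (init e).length = n0)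
    {A : Set (E → Word w)} (h0 : (0 : E → Word w) ∈ A)
    {ι : Type*} [Fintype ι] {y : ι → E → Fin w → F} (hy : ∀ i, bits c (y i) ⊆ A) (l : ι → F) :
    Cost tab init n0 A (bits c (fun ε j => ∑ i, l i * y i ε j))
      (d * (Fintype.card ι * (d + 1))) := by
  unfold bits
  refine Cost.iUnion hn (fun a => ?_)
  have h1 : bit c (fun ε j => ∑ i, l i * y i ε j) a =
      ∑ i, bit c (fun ε j => l i * y i ε j) a := by
    funext ε j
    simp only [bit, Finset.sum_apply]
    rw [map_sum, Finset.sum_apply]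
  rw [h1]
  refine sum' hn h0 (fun i => ?_)
  rw [bit_mul]
  have h2 := Cost.sum (tab := tab) (N := 0) hn h0
    (f := fun b : Fin d => (c (l i * c.symm (Pi.single b 1)) a) • bit c (y i) b) (fun b => by
      refine Cost.refl hn ?_
      rw [Set.singleton_subset_iff]
      rcases (by decide : ∀ z : ZMod 2, z = 0 ∨ z = 1) (c (l i * c.symm (Pi.single b 1)) a)
        with h | h
      · rw [h, zero_smul]
        exact h0
      · rw [h, one_smul]
        exact hy i (mem_bits c (y i) b))
  simpa using h2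

/-- Yates' algorithm. -/
theorem yates [SMulCommClass (ZMod 2) F F] (hn : ∀ e, (init e).length = n0) {L : ℕ}
    (T : Fin L → Fin L → F) (k : ℕ) :
    ∀ {A : Set (E → Word w)} (_ : (0 : E → Word w) ∈ A)
      {y : (Fin k → Fin L) → E → Fin w → F} (_ : ∀ v, bits c (y v) ⊆ A),
    Cost tab init n0 A
      (⋃ τ : Fin k → Fin L, bits c (fun ε j => ∑ v, (∏ i, T (τ i) (v i)) * y v ε j))
      (k * (L ^ k * (d * (L * (d + 1))))) := by
  induction k with
  | zero =>
    intro A h0 y hy
    refine (Cost.refl hn ?_).le (Nat.zero_le _)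
    intro f hf
    rw [Set.mem_iUnion] at hf
    obtain ⟨τ, hτ⟩ := hf
    have h1 : (fun ε j => ∑ v, (∏ i, T (τ i) (v i)) * y v ε j) = y τ := by
      funext ε j
      rw [Fintype.sum_unique]
      simp only [univ_eq_empty, prod_empty, one_mul]
      rw [Subsingleton.elim (default : Fin 0 → Fin L) τ]
    rw [h1] at hτ
    exact hy τ hτ
  | succ k ih =>
    intro A h0 y hy
    -- the slices
    let Z : Fin L → (Fin k → Fin L) → E → Fin w → F := fun x τ ε j =>
      ∑ v, (∏ i, T (τ i) (v i)) * y (Fin.cons x v) ε j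
    have h1 : Cost tab init n0 A (⋃ x : Fin L, ⋃ τ, bits c (Z x τ))
        (L * (k * (L ^ k * (d * (L * (d + 1)))))) :=
      Cost.iUnion hn (fun x => ih h0 (fun v => hy (Fin.cons x v)))
    have h2 : Cost tab init n0 (A ∪ ⋃ x : Fin L, ⋃ τ, bits c (Z x τ))
        (⋃ τ : Fin (k + 1) → Fin L, bits c (fun ε j => ∑ v, (∏ i, T (τ i) (v i)) * y v ε j))
        (Fintype.card (Fin (k + 1) → Fin L) * (d * (Fintype.card (Fin L) * (d + 1)))) := by
      refine iUnion' hn (fun τ => ?_)
      have h3 : (fun ε j => ∑ v, (∏ i, T (τ i) (v i)) * y v ε j) =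
          fun ε j => ∑ x, T (τ 0) x * Z x (Fin.tail τ) ε j := by
        funext ε j
        rw [← (Fin.consEquiv (fun _ : Fin (k + 1) => Fin L)).sum_comp, Fintype.sum_prod_type]
        refine sum_congr rfl (fun x _ => ?_)
        simp only [Z, mul_sum]
        refine sum_congr rfl (fun v _ => ?_)
        rw [Fin.prod_univ_succ]
        have h4 : (Fin.consEquiv (fun _ : Fin (k + 1) => Fin L)) (x, v) = Fin.cons x v := rfl
        rw [h4]
        simp only [Fin.cons_zero, Fin.cons_succ, Fin.tail]
        ring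
      rw [h3]
      refine comb c hn (Or.inl h0) (fun x => ?_) _
      intro f hf
      exact Or.inr (Set.mem_iUnion.2 ⟨x, Set.mem_iUnion.2 ⟨Fin.tail τ, hf⟩⟩)
    refine ((h1.trans h2).mono hn (subset_refl _) Set.subset_union_right).le (le_of_eq ?_)
    rw [Fintype.card_fun, Fintype.card_fin, Fintype.card_fin]
    ring

end Field

end Pool.Agent.OMV.Rect
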