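import Pool.Agent.Work.MP_0f1f76_lc.Fast.Conv
import Pool.Agent.Work.MP_0f1f76_lc.Rect.Yates

/-!
From a gadget over a finite field of characteristic two to an XOR-gadget over `F_2`, with control
of the decoder.
-/

namespace Pool.Agent.OMV.Rect

open Finset

noncomputable section

/-- The decoder of the gadget can be evaluated (on words) with at most `Q` instructions. -/
def DecCost {r m s t : ℕ} (g : XorGadget r m s t) (Q : ℕ) : Prop :=
  ∀ {E : Type} {w S : ℕ} {tab : E → Fin S → Word w → Word w} {init : E → List (Word w)}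
    {n0 : ℕ} (_ : ∀ e, (init e).length = n0) {A : Set (E → Word w)} (_ : (0 : E → Word w) ∈ A)
    {y : Fin t → E → Word w} (_ : ∀ k, y k ∈ A),
    Cost tab init n0 A (⋃ ρ : Fin r, {fun ε j => g.dec (fun k => y k ε j) ρ}) Q

/-- The decoder over the field can be evaluated with at most `Q` instructions. -/
def FDecCost {F V R : Type} [Field F] [Algebra (ZMod 2) F] (H : (V → F) →ₗ[F] (R → F))
    (Q d : ℕ) : Prop :=
  ∀ (c : F ≃ₗ[ZMod 2] (Fin d → ZMod 2)) {E : Type} {w S : ℕ}
    {tab : E → Fin S → Word w → Word w} {init : E → List (Word w)}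
    {n0 : ℕ} (_ : ∀ e, (init e).length = n0) {A : Set (E → Word w)} (_ : (0 : E → Word w) ∈ A)
    {y : V → E → Fin w → F} (_ : ∀ v, bits c (y v) ⊆ A),
    Cost tab init n0 A (⋃ ρ : R, bits c (fun ε j => H (fun v => y v ε j) ρ)) Q

theorem xorGadget_of_field' {F : Type*} [Field F] [Fintype F] [CharP F 2] [Algebra (ZMod 2) F]
    {t r N K b e : ℕ} (he : Fintype.card F = 2 ^ e)
    (A : Fin t → (Fin N → F) →ₗ[F] (Fin K → F)) (H : (Fin t → F) →ₗ[F] (Fin r → F))
    (h : ∀ μ : Fin r → Fin N → F, ∃ T : Fin t → (Fin K → F) → F,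
          ∀ x : Fin N → F, H (fun c => T c (A c x)) = fun ρ => ∑ l, μ ρ l * x l ^ 2 ^ b) :
    ∃ (g : XorGadget r (N * e) (K * e) (t * e)) (c : F ≃ₗ[ZMod 2] (Fin e → ZMod 2))
      (j0 : Fin e), ∀ y ρ,
        g.dec y ρ = c (H (fun k => c.symm (fun j => y (finProdFinEquiv (k, j)))) ρ) j0 := by
  classical
  have : FiniteDimensional (ZMod 2) F := Module.Finite.of_finite
  have hrank : Module.finrank (ZMod 2) F = e := by
    have h1 := Module.card_eq_pow_finrank (K := ZMod 2) (V := F)
    rw [he, ZMod.card] at h1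
    exact (Nat.pow_right_injective le_rfl h1).symm
  have hrank' : Module.finrank (ZMod 2) F = Module.finrank (ZMod 2) (Fin e → ZMod 2) := by
    rw [hrank]; simp
  let c : F ≃ₗ[ZMod 2] (Fin e → ZMod 2) := LinearEquiv.ofFinrankEq _ _ hrank'
  have he0 : 0 < e := by
    rcases Nat.eq_zero_or_pos e with h0 | h0
    · subst h0
      have : 1 < Fintype.card F := Fintype.one_lt_card
      simp [he] at this
    · exact h0
  let τ : F →ₗ[ZMod 2] ZMod 2 := (LinearMap.proj ⟨0, he0⟩).comp c.toLinearMap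
  have hτ : τ ≠ 0 := by
    intro h0
    have h1 := LinearMap.congr_fun h0 (c.symm (fun _ => 1))
    simp [τ] at h1
  let A' : Fin t → (Fin N → F) →ₗ[ZMod 2] (Fin K → F) := fun k => (A k).restrictScalars (ZMod 2)
  let H' : (Fin t → F) →ₗ[ZMod 2] (Fin r → F) := H.restrictScalars (ZMod 2)
  let τr : (Fin r → F) →ₗ[ZMod 2] (Fin r → ZMod 2) := τ.compLeft (Fin r)
  refine ⟨{
    addr := fun i => (pack c K).toLinearMap.comp
      ((A' (finProdFinEquiv.symm i).1).comp (pack c N).symm.toLinearMap)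
    dec := τr.comp (H'.comp (pack c t).symm.toLinearMap)
    univ := ?_ }, c, ⟨0, he0⟩, fun y ρ => rfl⟩
  intro M
  have hμ : ∀ (ρ : Fin r) (l : Fin N), ∃ μ : F, ∀ x : F,
      (∑ j, M ρ (finProdFinEquiv (l, j)) * c x j) = τ (μ * x ^ 2 ^ b) := by
    intro ρ l
    let f : F →ₗ[ZMod 2] ZMod 2 :=
      (∑ j, M ρ (finProdFinEquiv (l, j)) • (LinearMap.proj j : (Fin e → ZMod 2) →ₗ[ZMod 2] ZMod 2)).comp
        c.toLinearMap
    obtain ⟨μ, hμ⟩ := exists_mul_functional b τ hτ f
    refine ⟨μ, fun x => ?_⟩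
    rw [← hμ x]
    simp [f]
  choose μ hμ using hμ
  obtain ⟨T, hT⟩ := h μ
  refine ⟨fun i a => c (T (finProdFinEquiv.symm i).1 ((pack c K).symm a))
    (finProdFinEquiv.symm i).2, ?_⟩
  intro x
  have hx := hT ((pack c N).symm x)
  have hpk : (fun i : Fin (t * e) => c (T (finProdFinEquiv.symm i).1 ((pack c K).symm
      (((pack c K).toLinearMap.comp ((A' (finProdFinEquiv.symm i).1).comp
        (pack c N).symm.toLinearMap)) x))) (finProdFinEquiv.symm i).2)
      = pack c t (fun k => T k (A k ((pack c N).symm x))) := by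
    funext i
    have h5 : (pack c K).symm (((pack c K).toLinearMap.comp
        ((A' (finProdFinEquiv.symm i).1).comp (pack c N).symm.toLinearMap)) x) =
        A (finProdFinEquiv.symm i).1 ((pack c N).symm x) := by
      change (pack c K).symm (pack c K (A (finProdFinEquiv.symm i).1 ((pack c N).symm x))) = _
      rw [pack_symm_pack]
    rw [h5]
    rfl
  rw [hpk]
  have h2 : (τr.comp (H'.comp (pack c t).symm.toLinearMap))
      (pack c t (fun k => T k (A k ((pack c N).symm x)))) =
      τr (H (fun k => T k (A k ((pack c N).symm x)))) := by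
    simp [H']
  rw [h2, hx]
  funext ρ
  have h3 : τr (fun ρ => ∑ l, μ ρ l * ((pack c N).symm x) l ^ 2 ^ b) ρ =
      ∑ l, τ (μ ρ l * ((pack c N).symm x) l ^ 2 ^ b) := by
    simp [τr]
  rw [h3]
  have h4 : ∀ l, τ (μ ρ l * ((pack c N).symm x) l ^ 2 ^ b) =
      ∑ j, M ρ (finProdFinEquiv (l, j)) * x (finProdFinEquiv (l, j)) := by
    intro l
    rw [← hμ ρ l]
    apply Finset.sum_congr rfl
    intro j _
    simp [pack]
  rw [Finset.sum_congr rfl (fun l _ => h4 l)]
  rw [Matrix.mulVec, dotProduct]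
  rw [← Finset.sum_product']
  rw [← finProdFinEquiv.sum_comp]
  rfl

theorem xorGadget_of_types' {F : Type} [Field F] [Fintype F] [CharP F 2] [Algebra (ZMod 2) F]
    {V R N K : Type} [Fintype V] [Fintype R] [Fintype N] [Fintype K] {b e Q : ℕ}
    (he : Fintype.card F = 2 ^ e)
    (A : V → (N → F) →ₗ[F] (K → F)) (H : (V → F) →ₗ[F] (R → F)) (hH : FDecCost H Q e)
    (h : ∀ μ : R → N → F, ∃ T : V → (K → F) → F,
          ∀ x : N → F, H (fun c => T c (A c x)) = fun ρ => ∑ l, μ ρ l * x l ^ 2 ^ b) :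
    ∃ g : XorGadget (Fintype.card R) (Fintype.card N * e) (Fintype.card K * e)
      (Fintype.card V * e), DecCost g Q := by
  classical
  let eV := Fintype.equivFin V
  let eR := Fintype.equivFin R
  let eN := Fintype.equivFin N
  let eK := Fintype.equivFin K
  let A' : Fin (Fintype.card V) → (Fin (Fintype.card N) → F) →ₗ[F] (Fin (Fintype.card K) → F) :=
    fun c => (LinearMap.funLeft F F eK.symm).comp ((A (eV.symm c)).comp (LinearMap.funLeft F F eN))
  let H' : (Fin (Fintype.card V) → F) →ₗ[F] (Fin (Fintype.card R) → F) :=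
    (LinearMap.funLeft F F eR.symm).comp (H.comp (LinearMap.funLeft F F eV))
  obtain ⟨g, c, j0, hg⟩ := xorGadget_of_field' he A' H' (b := b) (fun μ => by
    obtain ⟨T, hT⟩ := h (fun ρ l => μ (eR ρ) (eN l))
    refine ⟨fun c w => T (eV.symm c) (fun k => w (eK k)), fun x => ?_⟩
    funext ρ
    have h1 := congrFun (hT (fun l => x (eN l))) (eR.symm ρ)
    have h2 : H' (fun c => T (eV.symm c) (fun k => (A' c x) (eK k))) ρ =
        H (fun c => T c (A c (fun l => x (eN l)))) (eR.symm ρ) := by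
      have h4 : (LinearMap.funLeft F F eV) (fun c => T (eV.symm c) (fun k => (A' c x) (eK k))) =
          fun c => T c (A c (fun l => x (eN l))) := by
        funext c
        simp only [LinearMap.funLeft_apply, A', LinearMap.comp_apply, Equiv.symm_apply_apply]
        rfl
      change H ((LinearMap.funLeft F F eV) (fun c => T (eV.symm c) (fun k => (A' c x) (eK k))))
        (eR.symm ρ) = _
      rw [h4]
    rw [h2, h1]
    simp only [Equiv.apply_symm_apply]
    exact Equiv.sum_comp eN (fun l => μ ρ l * x l ^ 2 ^ b))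
  refine ⟨g, ?_⟩
  intro E w S tab init n0 hn B h0 y hy
  -- the field valued family
  let Y : V → E → Fin w → F := fun v ε j => c.symm (fun a => y (finProdFinEquiv (eV v, a)) ε j)
  have hY : ∀ v, bits c (Y v) ⊆ B := by
    intro v f hf
    rw [bits, Set.mem_iUnion] at hf
    obtain ⟨a, ha⟩ := hf
    rw [Set.mem_singleton_iff] at ha
    have : f = y (finProdFinEquiv (eV v, a)) := by
      rw [ha]
      funext ε j
      simp only [bit, Y, LinearEquiv.apply_symm_apply]
    rw [this]
    exact hy _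
  refine (hH c hn h0 hY).mono hn (subset_refl _) ?_
  intro f hf
  rw [Set.mem_iUnion] at hf
  obtain ⟨ρ, hρ⟩ := hf
  rw [Set.mem_singleton_iff] at hρ
  refine Set.mem_iUnion.2 ⟨eR.symm ρ, ?_⟩
  have : f = bit c (fun ε j => H (fun v => Y v ε j) (eR.symm ρ)) j0 := by
    rw [hρ]
    funext ε j
    rw [hg]
    rfl
  rw [this]
  exact mem_bits _ _ _

end

end Pool.Agent.OMV.Rect
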