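import Pool.Agent.Work.MP_0f1f76_lc.Toric.Toric2
import Pool.Agent.Work.MP_0f1f76_lc.Rect.Conv

/-!
# The toric gadget has a cheap decoder
-/

namespace Pool.Agent.OMV.Rect

open Finset Toric

noncomputable section

/-- the coordinates of the grid, in a row -/
def gridEquiv (L M : ℕ) : (Fin (M * 2) → Fin L) ≃ Grid L M :=
  (Equiv.arrowCongr ((Equiv.prodCongr (Equiv.refl (Fin M)) finTwoEquiv.symm).trans
    finProdFinEquiv).symm (Equiv.refl (Fin L))).trans (Equiv.curry (Fin M) Bool (Fin L))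

theorem gridEquiv_apply (L M : ℕ) (v : Fin (M * 2) → Fin L) (i : Fin M) (ω : Bool) :
    gridEquiv L M v i ω = v (finProdFinEquiv (i, finTwoEquiv.symm ω)) := rfl

theorem prod_gridEquiv {L M : ℕ} {F : Type*} [CommMonoid F] (T : Fin L → Fin L → F)
    (τ v : Fin (M * 2) → Fin L) :
    ∏ i, ∏ ω, T (gridEquiv L M τ i ω) (gridEquiv L M v i ω) = ∏ q, T (τ q) (v q) := by
  have h1 : ∏ q, T (τ q) (v q) = ∏ p : Fin M × Bool,
      T (τ (finProdFinEquiv (p.1, finTwoEquiv.symm p.2)))
        (v (finProdFinEquiv (p.1, finTwoEquiv.symm p.2))) := by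
    rw [← ((Equiv.prodCongr (Equiv.refl (Fin M)) finTwoEquiv.symm).trans
      finProdFinEquiv).prod_comp]
    rfl
  rw [h1, Fintype.prod_prod_type]
  rfl

section

variable {E : Type*} {w S : ℕ} {tab : E → Fin S → Word w → Word w}
  {init : E → List (Word w)} {n0 : ℕ}
  {F : Type*} [Field F] [Algebra (ZMod 2) F] {e : ℕ} (c : F ≃ₗ[ZMod 2] (Fin e → ZMod 2))

/-- the grid part of the decoder -/
theorem grid_cost (hn : ∀ e, (init e).length = n0) {b h M : ℕ}
    (d : ℕ → Fin (2 ^ b * (2 * h + 2)) → F)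
    {A : Set (E → Word w)} (h0 : (0 : E → Word w) ∈ A)
    {y : Grid (2 ^ b * (2 * h + 2)) M → E → Fin w → F} (hy : ∀ v, bits c (y v) ⊆ A) :
    Cost tab init n0 A
      (⋃ ρ : Row (2 ^ b) h M, bits c (fun ε j => ∑ v, dec d ρ v * y v ε j))
      (M * 2 * ((2 ^ b * (2 * h + 2)) ^ (M * 2) * (e * ((2 ^ b * (2 * h + 2)) * (e + 1))))) := by
  have h1 := yates (tab := tab) c hn (fun n x => d n x) (M * 2) h0
    (y := fun v => y (gridEquiv _ M v)) (fun v => hy _)
  refine h1.mono hn (subset_refl _) ?_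
  intro f hf
  rw [Set.mem_iUnion] at hf
  obtain ⟨ρ, hρ⟩ := hf
  have hlt : ∀ i ω, rowVal ρ i ω < 2 ^ b * (2 * h + 2) := fun i ω =>
    (rowVal_lt ρ i ω).trans_le (Nat.mul_le_mul_left _ (by omega))
  let τ : Grid (2 ^ b * (2 * h + 2)) M := fun i ω => ⟨rowVal ρ i ω, hlt i ω⟩
  refine Set.mem_iUnion.2 ⟨(gridEquiv _ M).symm τ, ?_⟩
  have h2 : (fun ε j => ∑ v, dec d ρ v * y v ε j) =
      (fun ε j => ∑ v, (∏ q, d (((gridEquiv _ M).symm τ) q) (v q)) *
        y (gridEquiv _ M v) ε j) := by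
    funext ε j
    rw [← (gridEquiv _ M).sum_comp]
    refine sum_congr rfl (fun v _ => ?_)
    congr 1
    rw [← prod_gridEquiv (fun n x => d n x), Equiv.apply_symm_apply]
    rfl
  rw [h2] at hρ
  exact hρ

end

theorem toric_gadget' {F : Type} [Field F] [Fintype F] [CharP F 2] [Algebra (ZMod 2) F]
    {b h M s C : ℕ} (e : ℕ)
    (hs : 0 < s) (a : Fin C → Fin (2 * 2 ^ b - 1) → Fin s)
    (hA : ∀ c c', c ≠ c' → 4 * (univ.filter (fun j => a c j = a c' j)).card ≤ 2 ^ b)
    (σ : Fin C → Fin M → Bool) (hq : 2 ^ b * (2 * h + 2) ≤ Fintype.card F) :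
    ∃ (A : CellT (2 ^ b) h σ → (Col C M → F) →ₗ[F] (Adr b s → F))
      (H : (CellT (2 ^ b) h σ → F) →ₗ[F] (Row (2 ^ b) h M → F)),
      FDecCost H (M * 2 * ((2 ^ b * (2 * h + 2)) ^ (M * 2) *
          (e * ((2 ^ b * (2 * h + 2)) * (e + 1)))) +
        Fintype.card (Row (2 ^ b) h M) * (e * ((Fintype.card (Col C M) + 1) * (e + 1)))) e ∧
      ∀ μ : Row (2 ^ b) h M → Col C M → F, ∃ T : CellT (2 ^ b) h σ → (Adr b s → F) → F,
        ∀ x : Col C M → F,
          H (fun c => T c (A c x)) = fun ρ => ∑ l, μ ρ l * x l ^ 2 ^ b := by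
  classical
  obtain ⟨θ⟩ : Nonempty (Fin (2 ^ b * (2 * h + 2)) ↪ F) := by
    apply Function.Embedding.nonempty_of_card_le
    simpa using hq
  obtain ⟨d, hd⟩ := exists_dual θ θ.injective
  have hb1 : 1 ≤ 2 ^ b := Nat.one_le_two_pow
  let k0 : Adr b s := (⟨0, by omega⟩, ⟨0, hs⟩)
  let A : CellT (2 ^ b) h σ → (Col C M → F) →ₗ[F] (Adr b s → F) := fun c =>
    Sum.elim
      (fun v =>
        { toFun := fun x p => adr θ a σ v x p
          map_add' := by
            intro x y
            funext p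
            simp only [adr, Pi.add_apply, ← sum_add_distrib]
            refine sum_congr rfl (fun l _ => ?_)
            split_ifs <;> ring
          map_smul' := by
            intro r x
            funext p
            simp only [adr, Pi.smul_apply, smul_eq_mul, RingHom.id_apply, mul_sum]
            refine sum_congr rfl (fun l _ => ?_)
            split_ifs <;> ring })
      (fun p =>
        { toFun := fun x _ => x p.1.2
          map_add' := by intro x y; rfl
          map_smul' := by intro r x; rfl }) c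
  let H : (CellT (2 ^ b) h σ → F) →ₗ[F] (Row (2 ^ b) h M → F) :=
    { toFun := fun y ρ => ∑ v, dec d ρ v * y (Sum.inl v) +
        ∑ p : Bad (2 ^ b) h σ, if p.1.1 = ρ then y (Sum.inr p) else 0
      map_add' := by
        intro y z
        funext ρ
        simp only [Pi.add_apply, mul_add, sum_add_distrib]
        have : ∀ p : Bad (2 ^ b) h σ, (if p.1.1 = ρ then y (Sum.inr p) + z (Sum.inr p) else 0) =
            (if p.1.1 = ρ then y (Sum.inr p) else 0) + (if p.1.1 = ρ then z (Sum.inr p) else 0) := by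
          intro p
          split_ifs <;> simp
        rw [sum_congr rfl (fun p _ => this p), sum_add_distrib]
        ring
      map_smul' := by
        intro r y
        funext ρ
        simp only [Pi.smul_apply, smul_eq_mul, RingHom.id_apply, mul_add, mul_sum]
        congr 1
        · refine sum_congr rfl (fun v _ => by ring)
        · refine sum_congr rfl (fun p _ => ?_)
          split_ifs <;> simp }
  refine ⟨A, H, ?_, fun μ => ?_⟩
  · -- the cost of the decoder
    intro c E w S tab init n0 hn B h0 y hy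
    have h1 := grid_cost (tab := tab) c hn (M := M) (h := h) d h0 (y := fun v => y (Sum.inl v))
      (fun v => hy _)
    refine (h1.trans (C := ⋃ ρ, bits c (fun ε j => H (fun v => y v ε j) ρ)) (iUnion' hn
      (fun ρ => ?_))).mono hn (subset_refl _) Set.subset_union_right
    let Y : Option {p : Bad (2 ^ b) h σ // p.1.1 = ρ} → E → Fin w → F := fun o =>
      o.elim (fun ε j => ∑ v, dec d ρ v * y (Sum.inl v) ε j) (fun p => y (Sum.inr p.1))
    have h2 : (fun ε j => H (fun v => y v ε j) ρ) = fun ε j => ∑ o, (1 : F) * Y o ε j := by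
      funext ε j
      rw [Fintype.sum_option]
      simp only [one_mul]
      change ∑ v, dec d ρ v * y (Sum.inl v) ε j +
        ∑ p : Bad (2 ^ b) h σ, (if p.1.1 = ρ then y (Sum.inr p) ε j else 0) = _
      congr 1
      rw [← sum_filter]
      exact sum_subtype _ (fun p => by simp) _
    rw [h2]
    have hcard : Fintype.card (Option {p : Bad (2 ^ b) h σ // p.1.1 = ρ}) ≤
        Fintype.card (Col C M) + 1 := by
      rw [Fintype.card_option]
      apply Nat.succ_le_succ
      refine Fintype.card_le_of_injective (fun p => p.1.1.2) ?_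
      rintro ⟨⟨⟨p1, p2⟩, hp⟩, hp'⟩ ⟨⟨⟨q1, q2⟩, hq'⟩, hq''⟩ hpq
      simp only at hp' hq'' hpq
      subst hp' hq'' hpq
      rfl
    refine (comb c hn (Or.inl h0) (y := Y) ?_ (fun _ => 1)).le
      (Nat.mul_le_mul_left _ (Nat.mul_le_mul_right _ hcard))
    intro o
    cases o with
    | none => exact fun f hf => Or.inr (Set.mem_iUnion.2 ⟨ρ, hf⟩)
    | some p => exact fun f hf => Or.inl (hy _ hf)
  let T : CellT (2 ^ b) h σ → (Adr b s → F) → F := fun c w =>
    Sum.elim
      (fun v => ∑ p ∈ (univ : Finset (Row (2 ^ b) h M × Col C M)).filter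
        (fun p => GoodPair σ p.1 p.2.2), μ p.1 p.2 * (mon θ v (kap p.1 (σ p.2.1) p.2.2) *
          eD (2 ^ b) (fun j => w (j, a p.2.1 j))))
      (fun p => μ p.1.1 p.1.2 * w k0 ^ 2 ^ b) c
  refine ⟨T, fun x => ?_⟩
  funext ρ
  change ∑ v, dec d ρ v * (∑ p ∈ (univ : Finset (Row (2 ^ b) h M × Col C M)).filter
        (fun p => GoodPair σ p.1 p.2.2), μ p.1 p.2 * (mon θ v (kap p.1 (σ p.2.1) p.2.2) *
          eD (2 ^ b) (fun j => adr θ a σ v x (j, a p.2.1 j)))) +
      ∑ p : Bad (2 ^ b) h σ, (if p.1.1 = ρ then μ p.1.1 p.1.2 * x p.1.2 ^ 2 ^ b else 0) = _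
  have h1 : ∑ v, dec d ρ v * (∑ p ∈ (univ : Finset (Row (2 ^ b) h M × Col C M)).filter
        (fun p => GoodPair σ p.1 p.2.2), μ p.1 p.2 * (mon θ v (kap p.1 (σ p.2.1) p.2.2) *
          eD (2 ^ b) (fun j => adr θ a σ v x (j, a p.2.1 j)))) =
      ∑ p ∈ (univ : Finset (Row (2 ^ b) h M × Col C M)).filter
        (fun p => GoodPair σ p.1 p.2.2),
        (if p.1 = ρ then μ p.1 p.2 * x p.2 ^ 2 ^ b else 0) := by
    have h2 : ∀ v, dec d ρ v * (∑ p ∈ (univ : Finset (Row (2 ^ b) h M × Col C M)).filter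
        (fun p => GoodPair σ p.1 p.2.2), μ p.1 p.2 * (mon θ v (kap p.1 (σ p.2.1) p.2.2) *
          eD (2 ^ b) (fun j => adr θ a σ v x (j, a p.2.1 j)))) =
        ∑ p ∈ (univ : Finset (Row (2 ^ b) h M × Col C M)).filter
        (fun p => GoodPair σ p.1 p.2.2), μ p.1 p.2 * (dec d ρ v *
          (mon θ v (kap p.1 (σ p.2.1) p.2.2) *
            eD (2 ^ b) (fun j => adr θ a σ v x (j, a p.2.1 j)))) := by
      intro v
      rw [mul_sum]
      refine sum_congr rfl (fun p _ => by ring)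
    rw [sum_congr rfl (fun v _ => h2 v), sum_comm]
    refine sum_congr rfl (fun p hp => ?_)
    rw [mem_filter] at hp
    rw [← mul_sum, key θ d a σ hd hA p.1 ρ p.2 hp.2 x]
    split_ifs <;> simp
  have h3 : ∑ p : Bad (2 ^ b) h σ, (if p.1.1 = ρ then μ p.1.1 p.1.2 * x p.1.2 ^ 2 ^ b else 0) =
      ∑ p ∈ (univ : Finset (Row (2 ^ b) h M × Col C M)).filter
        (fun p => ¬ GoodPair σ p.1 p.2.2),
        (if p.1 = ρ then μ p.1 p.2 * x p.2 ^ 2 ^ b else 0) := by
    symm
    exact sum_subtype _ (fun p => by simp) _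
  rw [h1, h3, sum_filter_add_sum_filter_not, Fintype.sum_prod_type]
  simp only
  rw [sum_eq_single ρ]
  · simp
  · intro τ _ hτ
    apply sum_eq_zero
    intro l _
    rw [if_neg hτ]
  · intro hρ
    exact absurd (mem_univ ρ) hρ

end

end Pool.Agent.OMV.Rect
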