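import Pool.Agent.Work.MP_0f1f76_lc.Toric.Param
import Pool.Agent.Work.MP_0f1f76_lc.Rect.Gadget

/-! # Choice of the parameters (version with a cheap decoder) -/

namespace Pool.Agent.OMV.Rect

open Finset Toric

/-- `D = 2^b`, `M = 2^(14+b)`, `h = 2M = 2^(15+b)`, `C = 2^D`, `e = 2b+17`, `s = 2^16`. -/
theorem toric_family' (b : ℕ) (hb : 4 ≤ b) :
    ∃ (r m s t : ℕ) (g : XorGadget r m s t) (Q : ℕ), DecCost g Q ∧
    0 < r ∧ r ≤ t ∧ 0 < s ∧ s ≤ 2 ^ (b + 17) * (2 * b + 17) ∧ 2 * s ≤ m ∧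
    t ≤ 2 ^ (2 ^ (b + 15) * (2 * b + 17) + 2 * b + 18) ∧
    m ≤ 2 ^ 2 ^ (b + 15) ∧
    t * 2 ^ 2 ^ b ≤ 4 * (r * m) ∧ Q ≤ r * 2 ^ 2 ^ (b + 15) := by
  classical
  obtain ⟨e, he⟩ : ∃ e, e = 2 * b + 17 := ⟨_, rfl⟩
  rw [← he]
  have he1 : 1 ≤ e := by omega
  -- the field
  have hcard : Nat.card (GaloisField 2 e) = 2 ^ e := GaloisField.card 2 e (by omega)
  let _ : Fintype (GaloisField 2 e) := Fintype.ofFinite _
  have hcard' : Fintype.card (GaloisField 2 e) = 2 ^ e := by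
    rw [← hcard, Nat.card_eq_fintype_card]
  obtain ⟨a, ha⟩ := exists_code b (by omega)
  obtain ⟨σ, hσ⟩ := exists_signs b (2 ^ (15 + b)) hb
  have hp1 : 2 ^ b * 2 ^ (15 + b) * 2 = 2 ^ (2 * b + 16) := by
    rw [← pow_add, ← pow_succ]; congr 1; ring
  have hLe : 2 ^ b * (2 * 2 ^ (15 + b) + 2) ≤ 2 ^ e := by
    rw [he]
    have h1 : 2 ^ b * 2 ≤ 2 ^ (2 * b + 16) := by
      rw [← pow_succ]; exact Nat.pow_le_pow_right (by norm_num) (by omega)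
    have h2 : 2 ^ (2 * b + 17) = 2 * 2 ^ (2 * b + 16) := by rw [pow_succ]; ring
    rw [h2]
    nlinarith
  have hq : 2 ^ b * (2 * 2 ^ (15 + b) + 2) ≤ Fintype.card (GaloisField 2 e) := by
    rw [hcard']
    exact hLe
  obtain ⟨A, H, hH, hAH⟩ := toric_gadget' (F := GaloisField 2 e) (b := b) (h := 2 ^ (15 + b))
    (M := 2 ^ (14 + b)) (s := 2 ^ 16) (C := 2 ^ 2 ^ b) e (by norm_num) a ha σ hq
  obtain ⟨g, hg⟩ := xorGadget_of_types' hcard' A H hH hAH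
  refine ⟨_, _, _, _, g, _, hg, ?_⟩
  -- the cardinals
  obtain ⟨R, hR⟩ : ∃ R, R = Fintype.card (Row (2 ^ b) (2 ^ (15 + b)) (2 ^ (14 + b))) := ⟨_, rfl⟩
  rw [← hR] at hσ
  have hRv : R = (2 ^ b * 2 ^ b * (2 * 2 ^ (15 + b) * 2 ^ (15 + b))) ^ 2 ^ (14 + b) := by
    rw [hR]; simp [Fintype.card_prod]
  have hN : Fintype.card (Col (2 ^ 2 ^ b) (2 ^ (14 + b))) = 2 ^ 2 ^ b * 2 ^ 2 ^ (14 + b) := by
    simp [Fintype.card_prod]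
  have hK : Fintype.card (Adr b (2 ^ 16)) = (2 * 2 ^ b - 1) * 2 ^ 16 := by
    simp [Fintype.card_prod]
  have hbad : Fintype.card (Bad (2 ^ b) (2 ^ (15 + b)) σ) ≤ R * 2 ^ 2 ^ (14 + b) := by
    rw [card_bad]
    convert hσ
  have hV : Fintype.card (CellT (2 ^ b) (2 ^ (15 + b)) σ) =
      ((2 ^ b * (2 * 2 ^ (15 + b) + 2)) ^ 2) ^ 2 ^ (14 + b) +
        Fintype.card (Bad (2 ^ b) (2 ^ (15 + b)) σ) := by
    rw [Fintype.card_sum]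
    congr 1
    simp
  rw [hN, hK, hV, ← hR]
  obtain ⟨Bd, hBd⟩ : ∃ Bd, Bd = Fintype.card (Bad (2 ^ b) (2 ^ (15 + b)) σ) := ⟨_, rfl⟩
  rw [← hBd] at hbad ⊢
  obtain ⟨Gd, hGd⟩ : ∃ Gd, Gd = ((2 ^ b * (2 * 2 ^ (15 + b) + 2)) ^ 2) ^ 2 ^ (14 + b) := ⟨_, rfl⟩
  rw [← hGd]
  -- relations
  have hh : 2 ^ (15 + b) = 2 * 2 ^ (14 + b) := by rw [← pow_succ']; congr 1; ring
  have hR2 : R * 2 ^ 2 ^ (14 + b) = (2 * 2 ^ b) ^ (2 * 2 ^ (14 + b)) *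
      (2 ^ (15 + b)) ^ (2 * 2 ^ (14 + b)) := by
    rw [hRv]; exact par_aux1 _ _ _
  have hG2 : Gd = (2 * 2 ^ b) ^ (2 * 2 ^ (14 + b)) * (2 ^ (15 + b) + 1) ^ (2 * 2 ^ (14 + b)) := by
    rw [hGd]; exact par_aux2 _ _ _
  have hG3 : Gd ≤ 3 * (R * 2 ^ 2 ^ (14 + b)) := by
    rw [hG2, hR2]
    have := succ_pow_le' hh (by positivity)
    calc (2 * 2 ^ b) ^ (2 * 2 ^ (14 + b)) * (2 ^ (15 + b) + 1) ^ (2 * 2 ^ (14 + b))
        ≤ (2 * 2 ^ b) ^ (2 * 2 ^ (14 + b)) * (3 * (2 ^ (15 + b)) ^ (2 * 2 ^ (14 + b))) :=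
          Nat.mul_le_mul_left _ this
      _ = _ := by rw [mul_left_comm]
  have hR3 : R * 2 ^ 2 ^ (14 + b) = 2 ^ ((2 * b + 16) * (2 * 2 ^ (14 + b))) := by
    rw [hR2, ← mul_pow, pow_mul 2 (2 * b + 16), ← hp1]
    congr 1
    ring
  have hRpos : 0 < R := by rw [hRv]; positivity
  have hRG : R ≤ Gd := by
    rw [hRv, hGd]
    refine Nat.pow_le_pow_left ?_ _
    have h1 : 0 < 2 ^ b := by positivity
    have h2 : 0 < 2 ^ (15 + b) := by positivity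
    obtain ⟨X, hX⟩ : ∃ X, X = 2 ^ b := ⟨_, rfl⟩
    obtain ⟨Y, hY⟩ : ∃ Y, Y = 2 ^ (15 + b) := ⟨_, rfl⟩
    rw [← hX, ← hY]
    calc X * X * (2 * Y * Y) ≤ X * X * ((2 * Y + 2) * (2 * Y + 2)) := by
          refine Nat.mul_le_mul_left _ ?_
          nlinarith
      _ = (X * (2 * Y + 2)) ^ 2 := by ring
  have he2 : e ≤ 2 ^ e := Nat.lt_two_pow_self.le
  have he3 : e + 1 ≤ 2 ^ e := Nat.lt_two_pow_self
  have hK1 : (2 * 2 ^ b - 1) * 2 ^ 16 ≤ 2 ^ (b + 17) := by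
    calc (2 * 2 ^ b - 1) * 2 ^ 16 ≤ (2 * 2 ^ b) * 2 ^ 16 := Nat.mul_le_mul_right _ (by omega)
      _ = 2 ^ (b + 17) := by rw [pow_add]; ring
  have hb1 : b < 2 ^ b := Nat.lt_two_pow_self
  have hb16 : 16 ≤ 2 ^ b := by
    calc 16 = 2 ^ 4 := by norm_num
      _ ≤ 2 ^ b := Nat.pow_le_pow_right (by norm_num) hb
  have h14 : 2 ^ (14 + b) = 16384 * 2 ^ b := by rw [pow_add]; norm_num
  have h15 : 2 ^ (b + 15) = 32768 * 2 ^ b := by rw [pow_add]; ring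
  have h15' : 2 ^ (15 + b) = 2 ^ (b + 15) := by rw [add_comm]
  refine ⟨hRpos, ?_, ?_, Nat.mul_le_mul_right _ hK1, ?_, ?_, ?_, ?_, ?_⟩
  · calc R ≤ Gd := hRG
      _ ≤ Gd + Bd := Nat.le_add_right _ _
      _ ≤ (Gd + Bd) * e := Nat.le_mul_of_pos_right _ he1
  · have : 0 < 2 * 2 ^ b - 1 := by omega
    positivity
  · rw [← mul_assoc]
    refine Nat.mul_le_mul_right _ ?_
    calc 2 * ((2 * 2 ^ b - 1) * 2 ^ 16) ≤ 2 * 2 ^ (b + 17) := Nat.mul_le_mul_left _ hK1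
      _ = 2 ^ (b + 18) := by rw [← pow_succ']
      _ ≤ 2 ^ (2 ^ b + 2 ^ (14 + b)) := Nat.pow_le_pow_right (by norm_num) (by omega)
      _ = 2 ^ 2 ^ b * 2 ^ 2 ^ (14 + b) := pow_add _ _ _
  · calc (Gd + Bd) * e ≤ (3 * (R * 2 ^ 2 ^ (14 + b)) + R * 2 ^ 2 ^ (14 + b)) * 2 ^ e :=
          Nat.mul_le_mul (add_le_add hG3 hbad) he2
      _ = 2 ^ 2 * 2 ^ ((2 * b + 16) * (2 * 2 ^ (14 + b))) * 2 ^ e := by rw [hR3]; ring
      _ = 2 ^ (2 + (2 * b + 16) * (2 * 2 ^ (14 + b)) + e) := by rw [← pow_add, ← pow_add]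
      _ ≤ 2 ^ (2 ^ (b + 15) * e + 2 * b + 18) := by
          refine Nat.pow_le_pow_right (by norm_num) ?_
          rw [← hh, h15', he]
          have : 0 < 2 ^ (b + 15) := by positivity
          nlinarith
  · calc 2 ^ 2 ^ b * 2 ^ 2 ^ (14 + b) * e ≤ 2 ^ 2 ^ b * 2 ^ 2 ^ (14 + b) * 2 ^ e :=
          Nat.mul_le_mul_left _ he2
      _ = 2 ^ (2 ^ b + 2 ^ (14 + b) + e) := by rw [← pow_add, ← pow_add]
      _ ≤ 2 ^ 2 ^ (b + 15) := by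
          refine Nat.pow_le_pow_right (by norm_num) ?_
          omega
  · calc (Gd + Bd) * e * 2 ^ 2 ^ b
        ≤ (3 * (R * 2 ^ 2 ^ (14 + b)) + R * 2 ^ 2 ^ (14 + b)) * e * 2 ^ 2 ^ b :=
          Nat.mul_le_mul_right _ (Nat.mul_le_mul_right _ (add_le_add hG3 hbad))
      _ = 4 * (R * (2 ^ 2 ^ b * 2 ^ 2 ^ (14 + b) * e)) := by ring
  · -- the cost of the decoder
    obtain ⟨L, hL⟩ : ∃ L, L = 2 ^ b * (2 * 2 ^ (15 + b) + 2) := ⟨_, rfl⟩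
    rw [← hL] at hLe hGd ⊢
    have hGd' : L ^ (2 ^ (14 + b) * 2) = Gd := by
      rw [hGd, ← pow_mul]
      congr 1
      ring
    rw [hGd']
    have hM2 : 2 ^ (14 + b) * 2 = 2 ^ (15 + b) := by rw [← pow_succ]; congr 1; ring
    rw [hM2]
    have hA1 : 2 ^ (15 + b) * (Gd * (e * (L * (e + 1)))) ≤
        R * 2 ^ (2 + 2 ^ (14 + b) + (15 + b) + 3 * e) := by
      calc 2 ^ (15 + b) * (Gd * (e * (L * (e + 1))))
          ≤ 2 ^ (15 + b) * (3 * (R * 2 ^ 2 ^ (14 + b)) * (2 ^ e * (2 ^ e * 2 ^ e))) := by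
            gcongr
        _ ≤ 2 ^ (15 + b) * (4 * (R * 2 ^ 2 ^ (14 + b)) * (2 ^ e * (2 ^ e * 2 ^ e))) := by
            gcongr
            norm_num
        _ = R * (2 ^ 2 * 2 ^ 2 ^ (14 + b) * 2 ^ (15 + b) * (2 ^ e) ^ 3) := by ring
        _ = _ := by
            rw [← pow_mul, ← pow_add, ← pow_add, ← pow_add, mul_comm e 3]
    have hA2 : R * (e * ((2 ^ 2 ^ b * 2 ^ 2 ^ (14 + b) + 1) * (e + 1))) ≤
        R * 2 ^ (2 ^ b + 2 ^ (14 + b) + 1 + 2 * e) := by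
      have h1 : 2 ^ 2 ^ b * 2 ^ 2 ^ (14 + b) + 1 ≤ 2 ^ (2 ^ b + 2 ^ (14 + b) + 1) := by
        rw [← pow_add, pow_succ]
        have : 1 ≤ 2 ^ (2 ^ b + 2 ^ (14 + b)) := Nat.one_le_two_pow
        omega
      calc R * (e * ((2 ^ 2 ^ b * 2 ^ 2 ^ (14 + b) + 1) * (e + 1)))
          ≤ R * (2 ^ e * (2 ^ (2 ^ b + 2 ^ (14 + b) + 1) * 2 ^ e)) := by gcongr
        _ = R * (2 ^ (2 ^ b + 2 ^ (14 + b) + 1) * (2 ^ e) ^ 2) := by ring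
        _ = _ := by rw [← pow_mul, ← pow_add, mul_comm e 2]
    refine (add_le_add hA1 hA2).trans ?_
    rw [← mul_add]
    refine Nat.mul_le_mul_left _ ?_
    have h1 : 2 ^ (2 + 2 ^ (14 + b) + (15 + b) + 3 * e) ≤ 2 ^ (2 ^ (b + 15) - 1) :=
      Nat.pow_le_pow_right (by norm_num) (by omega)
    have h2 : 2 ^ (2 ^ b + 2 ^ (14 + b) + 1 + 2 * e) ≤ 2 ^ (2 ^ (b + 15) - 1) :=
      Nat.pow_le_pow_right (by norm_num) (by omega)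
    have h3 : 2 ^ 2 ^ (b + 15) = 2 ^ (2 ^ (b + 15) - 1) + 2 ^ (2 ^ (b + 15) - 1) := by
      rw [← mul_two, ← pow_succ, Nat.sub_add_cancel Nat.one_le_two_pow]
    rw [h3]
    exact add_le_add h1 h2

end Pool.Agent.OMV.Rect
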