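import Pool.Agent.Work.MP_0f1f76_lc.Fast.Model

/-!
The computation of rectangular matrix-vector products by straight-line word programs.
-/

namespace Pool.Agent.OMV

/-- The straight-line program `P` (with output registers `out`) computes the product `M x` of the
`m × n` matrix `M` and every vector `x` of length `n`, when the memory holds the tables `tab`:
bit `i % w` of the word in register `out (i / w)` is coordinate `i` of `M x`. -/
def RComputes {m n w S : ℕ} (P : List Instr) (out : ℕ → ℕ) (tab : Fin S → Word w → Word w)
    (M : Matrix (Fin m) (Fin n) (ZMod 2)) : Prop :=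
  ∀ (x : Fin n → ZMod 2) (i : Fin m) (b : Fin w), (b : ℕ) = (i : ℕ) % w →
    ((run tab (packed w x) P).getD (out ((i : ℕ) / w)) 0) b = (M.mulVec x) i

end Pool.Agent.OMV
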