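import Pool.Agent.Work.MP_0f1f76_lc.Fast.Program
import Pool.Agent.Work.MP_0f1f76_lc.Rect.Model
import Pool.Agent.Work.MP_0f1f76_lc.Rect.Conv

/-!
From an XOR-gadget to a straight-line program for `p × n` OMV over `F_2`.
-/

namespace Pool.Agent.OMV.Rect

open Finset Prog

section Tables

variable {r m s t : ℕ} (g : XorGadget r m s t) {p n : ℕ} (w u : ℕ)

/-- Extension by zero of a matrix. -/
def extM (M : Matrix (Fin p) (Fin n) (ZMod 2)) (R q : ℕ) : ZMod 2 :=
  if h : R < p ∧ q < n then M ⟨R, h.1⟩ ⟨q, h.2⟩ else 0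

/-- The submatrix for the row group `jj`, bit `b`, super-group `γ`, column group `i`. -/
def sub (r m : ℕ) (M : Matrix (Fin p) (Fin n) (ZMod 2)) (jj γ i b : ℕ) :
    Matrix (Fin r) (Fin m) (ZMod 2) := fun ρ j =>
  if i * m + j < u * w then extM M ((jj * r + ρ) * w + b) (γ * (u * w) + (i * m + j)) else 0

theorem sub_add (M M' : Matrix (Fin p) (Fin n) (ZMod 2)) (jj γ i b : ℕ) :
    sub w u r m (M + M') jj γ i b = sub w u r m M jj γ i b + sub w u r m M' jj γ i b := by
  ext ρ j
  simp only [sub, extM, Matrix.add_apply]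
  split_ifs <;> simp

theorem sub_smul (a : ZMod 2) (M : Matrix (Fin p) (Fin n) (ZMod 2)) (jj γ i b : ℕ) :
    sub w u r m (a • M) jj γ i b = a • sub w u r m M jj γ i b := by
  ext ρ j
  simp only [sub, extM, Matrix.smul_apply]
  split_ifs <;> simp

/-- The matrix dependent tables. -/
def preTab (TL : Matrix (Fin r) (Fin m) (ZMod 2) →ₗ[ZMod 2] (Fin t → (Fin s → ZMod 2) → ZMod 2))
    (L : ℕ) (M : Matrix (Fin p) (Fin n) (ZMod 2)) (c : Fin t) (γ jj : ℕ) (A : Word w) :
    Word w := fun b => ∑ i ∈ range L, TL (sub w u r m M jj γ i b) c (part w s i A)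

theorem preTab_add (TL : Matrix (Fin r) (Fin m) (ZMod 2) →ₗ[ZMod 2]
    (Fin t → (Fin s → ZMod 2) → ZMod 2)) (L : ℕ) (M M' : Matrix (Fin p) (Fin n) (ZMod 2))
    (c : Fin t) (γ jj : ℕ) (A : Word w) :
    preTab w u TL L (M + M') c γ jj A = preTab w u TL L M c γ jj A +
      preTab w u TL L M' c γ jj A := by
  funext b
  simp only [preTab, sub_add, map_add, Pi.add_apply, Finset.sum_add_distrib]

theorem preTab_smul (TL : Matrix (Fin r) (Fin m) (ZMod 2) →ₗ[ZMod 2]
    (Fin t → (Fin s → ZMod 2) → ZMod 2)) (L : ℕ) (a : ZMod 2)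
    (M : Matrix (Fin p) (Fin n) (ZMod 2)) (c : Fin t) (γ jj : ℕ) (A : Word w) :
    preTab w u TL L (a • M) c γ jj A = a • preTab w u TL L M c γ jj A := by
  funext b
  simp only [preTab, sub_smul, map_smul, Pi.smul_apply, Finset.smul_sum]

/-- The value of the output word. -/
theorem out_eq (TL : Matrix (Fin r) (Fin m) (ZMod 2) →ₗ[ZMod 2]
      (Fin t → (Fin s → ZMod 2) → ZMod 2))
    (hTL : ∀ M x, g.dec (fun c => TL M c (g.addr c x)) = M.mulVec x)
    (hw : 0 < w) {L G : ℕ} (hL : s * L ≤ w) (hum : u * w ≤ L * m) (hG : n ≤ G * (u * w))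
    (M : Matrix (Fin p) (Fin n) (ZMod 2)) (x : Fin n → ZMod 2) (jj : ℕ) (ρ : Fin r)
    (b : Fin w) :
    (∑ c, decc g ρ c • ∑ γ ∈ range G, preTab w u TL L M c γ jj (addrWord g w u c γ x)) b =
      ∑ q ∈ range n, extM M ((jj * r + ρ) * w + b) q * ext0 x q := by
  set R := (jj * r + (ρ : ℕ)) * w + (b : ℕ) with hR
  have h1 : (∑ c, decc g ρ c • ∑ γ ∈ range G, preTab w u TL L M c γ jj
      (addrWord g w u c γ x)) b =
      ∑ γ ∈ range G, ∑ i ∈ range L, ∑ c, decc g ρ c * TL (sub w u r m M jj γ i b) c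
        (g.addr c (colv w u m x γ i)) := by
    rw [Finset.sum_apply]
    simp only [Pi.smul_apply, Finset.sum_apply, smul_eq_mul, preTab]
    have h2 : ∀ c : Fin t, decc g ρ c * ∑ γ ∈ range G, ∑ i ∈ range L,
        TL (sub w u r m M jj γ i b) c (part w s i (addrWord g w u c γ x)) =
        ∑ γ ∈ range G, ∑ i ∈ range L, decc g ρ c * TL (sub w u r m M jj γ i b) c
          (g.addr c (colv w u m x γ i)) := by
      intro c
      rw [Finset.mul_sum]
      refine Finset.sum_congr rfl (fun γ _ => ?_)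
      rw [Finset.mul_sum]
      refine Finset.sum_congr rfl (fun i hi => ?_)
      rw [part_addrWord g w u hw hL c γ x (Finset.mem_range.1 hi)]
    rw [Finset.sum_congr rfl (fun c _ => h2 c), Finset.sum_comm]
    refine Finset.sum_congr rfl (fun γ _ => ?_)
    rw [Finset.sum_comm]
  rw [h1]
  have h3 : ∀ γ i, ∑ c, decc g ρ c * TL (sub w u r m M jj γ i b) c
      (g.addr c (colv w u m x γ i)) =
      ∑ j ∈ range m, (if i * m + j < u * w then extM M R (γ * (u * w) + (i * m + j)) *
        ext0 x (γ * (u * w) + (i * m + j)) else 0) := by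
    intro γ i
    rw [← dec_eq g (fun c => TL (sub w u r m M jj γ i b) c (g.addr c (colv w u m x γ i))) ρ,
      hTL, Finset.sum_range]
    unfold Matrix.mulVec
    unfold dotProduct
    refine Finset.sum_congr rfl (fun j _ => ?_)
    simp only [sub, colv]
    split_ifs <;> simp [hR]
  simp only [h3]
  have h4 : ∀ γ, ∑ i ∈ range L, ∑ j ∈ range m, (if i * m + j < u * w then
      extM M R (γ * (u * w) + (i * m + j)) * ext0 x (γ * (u * w) + (i * m + j)) else 0) =
      ∑ q ∈ range (u * w), extM M R (γ * (u * w) + q) * ext0 x (γ * (u * w) + q) := by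
    intro γ
    rw [← sum_range_mul' (fun q => if q < u * w then
      extM M R (γ * (u * w) + q) * ext0 x (γ * (u * w) + q) else 0) L m]
    rw [sum_range_extend _ hum (fun q hq => by simp only [if_neg (not_lt.2 hq)])]
    refine Finset.sum_congr rfl (fun q hq => ?_)
    rw [if_pos (Finset.mem_range.1 hq)]
  rw [Finset.sum_congr rfl (fun γ _ => h4 γ),
    ← sum_range_mul' (fun q => extM M R q * ext0 x q) G (u * w)]
  refine sum_range_extend _ hG (fun q hq => ?_)
  have : ext0 x q = 0 := by unfold ext0; rw [dif_neg (by omega)]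
  rw [this, mul_zero]

end Tables

/-- From an XOR-gadget to a straight-line program for `p × n` OMV.
`L` column groups are merged into one address (`s*L ≤ w`), `u` input words hold the `L` column
groups of one super-group (`u*w ≤ L*m`), there are `G` super-groups and `J` row groups of `r*w`
rows each. -/
theorem program_of_gadget' {r m s t Q : ℕ} (g : XorGadget r m s t) (hQ : DecCost g Q)
    {p n w L u G J : ℕ}
    (hw : 0 < w) (hr : 0 < r) (hL : s * L ≤ w) (hum : u * w ≤ L * m)
    (hG : n ≤ G * (u * w)) (hJ : p ≤ J * (r * w)) :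
    ∃ (S : ℕ) (P : List Instr) (out : ℕ → ℕ)
      (pre : Matrix (Fin p) (Fin n) (ZMod 2) →ₗ[ZMod 2] (Fin S → Word w → Word w))
      (base : Fin S → Word w → Word w),
      S ≤ t * u + t * G * J ∧
      P.length ≤ 2 * (t * G * u) + 2 * (t * G * J) + J * Q + 1 ∧
      ∀ M, RComputes P out (base + pre M) M := by
  classical
  obtain ⟨TL, hTL⟩ := exists_linear g
  let eqv : (Fin t × Fin u) ⊕ ((Fin t × Fin G) × Fin J) ≃ Fin (t * u + t * G * J) :=
    (Equiv.sumCongr finProdFinEquiv
      ((Equiv.prodCongr finProdFinEquiv (Equiv.refl (Fin J))).trans finProdFinEquiv)).trans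
      finSumFinEquiv
  let base : Fin (t * u + t * G * J) → Word w → Word w := fun k =>
    Sum.elim (fun p => baseTab g w p.1 p.2) (fun _ => 0) (eqv.symm k)
  let pre : Matrix (Fin p) (Fin n) (ZMod 2) →ₗ[ZMod 2]
      (Fin (t * u + t * G * J) → Word w → Word w) :=
    { toFun := fun M k => Sum.elim (fun _ => 0)
        (fun p : (Fin t × Fin G) × Fin J => preTab w u TL L M p.1.1 p.1.2 p.2) (eqv.symm k)
      map_add' := by
        intro M M'
        funext k
        simp only [Pi.add_apply]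
        cases eqv.symm k with
        | inl p => simp
        | inr p => funext A; simp [preTab_add]
      map_smul' := by
        intro a M
        funext k
        simp only [Pi.smul_apply]
        cases eqv.symm k with
        | inl p => simp
        | inr p => funext A; simp [preTab_smul] }
  let E := Matrix (Fin p) (Fin n) (ZMod 2) × (Fin n → ZMod 2)
  let tab : E → Fin (t * u + t * G * J) → Word w → Word w := fun e => base + pre e.1
  let init : E → List (Word w) := fun e => packed w e.2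
  let n0 := (n + w - 1) / w
  have hn : ∀ e : E, (init e).length = n0 := fun e => packed_length w e.2
  have htab1 : ∀ (e : E) (c : Fin t) (κ : Fin u) (A : Word w),
      tab e (eqv (Sum.inl (c, κ))) A = baseTab g w c κ A := by
    intro e c κ A
    simp [tab, base, pre]
  have htab2 : ∀ (e : E) (c : Fin t) (γ : Fin G) (jj : Fin J) (A : Word w),
      tab e (eqv (Sum.inr ((c, γ), jj))) A = preTab w u TL L e.1 c γ jj A := by
    intro e c γ jj A
    simp [tab, base, pre]
  -- the functions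
  let inF : ℕ → E → Word w := fun k e => inp w e.2 k
  let adF : Fin t → Fin G → E → Word w := fun c γ e => addrWord g w u c γ e.2
  let yF : Fin J → Fin t → E → Word w := fun jj c e =>
    ∑ γ ∈ range G, preTab w u TL L e.1 c γ jj (addrWord g w u c γ e.2)
  let oF : Fin J → Fin r → E → Word w := fun jj ρ e => ∑ c, decc g ρ c • yF jj c e
  let A0 : Set (E → Word w) := {f | ∃ k < n0, f = inF k}
  have hA0 : AllAvail tab init n0 [] A0 := by
    rintro f ⟨k, hk, rfl⟩
    exact ⟨k, by simpa using hk, fun e => packed_getD w e.2 hk⟩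
  let A1 : Set (E → Word w) := A0 ∪ {0}
  have hinF : ∀ k, inF k ∈ A1 := by
    intro k
    by_cases hk : k < n0
    · exact Or.inl ⟨k, hk, rfl⟩
    · refine Or.inr ?_
      rw [Set.mem_singleton_iff]
      funext e
      exact inp_eq_zero hw e.2 hk
  have c1 : Cost tab init n0 A0 {0} 1 := Cost.zero hn A0
  let B2 : Set (E → Word w) := ⋃ c, ⋃ γ, {adF c γ}
  have c2 : Cost tab init n0 A1 B2 (t * (G * (u * (1 + 1)))) := by
    refine Cost.iUnion hn (fun c => Cost.iUnion hn (fun γ => ?_))
    have h1 : adF c γ = ∑ κ : Fin u, fun e => tab e (eqv (Sum.inl (c, κ)))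
        (inF ((γ : ℕ) * u + κ) e) := by
      funext e
      simp only [adF, addrWord, Finset.sum_apply, htab1, inF]
      
    rw [h1]
    exact Cost.sum hn (Or.inr rfl) (fun κ => Cost.look hn (hinF _) _)
  let B3 : Set (E → Word w) := ⋃ jj, ⋃ c, {yF jj c}
  have c3 : Cost tab init n0 (A1 ∪ B2) B3 (J * (t * (G * (1 + 1)))) := by
    refine Cost.iUnion hn (fun jj => Cost.iUnion hn (fun c => ?_))
    have h1 : yF jj c = ∑ γ : Fin G, fun e => tab e (eqv (Sum.inr ((c, γ), jj)))
        (adF c γ e) := by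
      funext e
      simp only [yF, adF, Finset.sum_apply, htab2]
      rw [Finset.sum_range]
    rw [h1]
    refine Cost.sum hn (Or.inl (Or.inr rfl)) (fun γ => Cost.look hn ?_ _)
    exact Or.inr (Set.mem_iUnion.2 ⟨c, Set.mem_iUnion.2 ⟨γ, rfl⟩⟩)
  let B4 : Set (E → Word w) := ⋃ jj, ⋃ ρ, {oF jj ρ}
  have c4 : Cost tab init n0 (A1 ∪ B2 ∪ B3) B4 (J * Q) := by
    refine Cost.iUnion hn (fun jj => ?_)
    have h0 : (0 : E → Word w) ∈ A1 ∪ B2 ∪ B3 := Or.inl (Or.inl (Or.inr rfl))
    have h1 := hQ (tab := tab) hn h0 (y := yF jj) (fun c =>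
      Or.inr (Set.mem_iUnion.2 ⟨jj, Set.mem_iUnion.2 ⟨c, rfl⟩⟩))
    have h2 : ∀ ρ, oF jj ρ = fun ε j => g.dec (fun k => yF jj k ε j) ρ := by
      intro ρ
      funext e j
      rw [dec_eq]
      simp only [oF, Finset.sum_apply, Pi.smul_apply, smul_eq_mul]
    have h3 : (⋃ ρ, {oF jj ρ}) = ⋃ ρ, {fun ε j => g.dec (fun k => yF jj k ε j) ρ} := by
      simp only [h2]
    rw [h3]
    exact h1
  have c5 : Cost tab init n0 A0 B4 (1 + (t * (G * (u * (1 + 1)))) +
      (J * (t * (G * (1 + 1)))) + (J * Q)) := by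
    have h12 := c1.trans c2
    have h13 : Cost tab init n0 A0 (({0} ∪ B2) ∪ B3) _ :=
      h12.trans (by rw [← Set.union_assoc]; exact c3)
    have h14 : Cost tab init n0 A0 ((({0} ∪ B2) ∪ B3) ∪ B4) _ :=
      h13.trans (by rw [← Set.union_assoc, ← Set.union_assoc]; exact c4)
    exact h14.mono hn (subset_refl _) Set.subset_union_right
  obtain ⟨Z, hZ, hav⟩ := c5 [] hA0
  have hout : ∀ (jj : Fin J) (ρ : Fin r), ∃ i, Avail tab init n0 ([] ++ Z) i (oF jj ρ) := by
    intro jj ρ
    exact hav _ (Or.inr (Set.mem_iUnion.2 ⟨jj, Set.mem_iUnion.2 ⟨ρ, rfl⟩⟩))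
  choose reg hreg using hout
  have hidx : ∀ q, q < J * r → q / r < J ∧ q % r < r := by
    intro q hq
    exact ⟨by rwa [Nat.div_lt_iff_lt_mul hr], Nat.mod_lt _ hr⟩
  let out : ℕ → ℕ := fun q => if h : q < J * r then
    reg ⟨q / r, (hidx q h).1⟩ ⟨q % r, (hidx q h).2⟩ else 0
  refine ⟨t * u + t * G * J, Z, out, pre, base, le_refl _, ?_, ?_⟩
  · refine hZ.trans (le_of_eq ?_)
    ring
  · intro M x i b hb
    have hi := i.2
    have hq : (i : ℕ) / w < J * r := by
      rw [Nat.div_lt_iff_lt_mul hw]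
      have : J * r * w = J * (r * w) := by ring
      omega
    have h1 : out ((i : ℕ) / w) = reg ⟨(i : ℕ) / w / r, (hidx _ hq).1⟩
        ⟨(i : ℕ) / w % r, (hidx _ hq).2⟩ := by
      simp only [out]
      rw [dif_pos hq]
    rw [h1]
    have h2 := (hreg ⟨(i : ℕ) / w / r, (hidx _ hq).1⟩ ⟨(i : ℕ) / w % r, (hidx _ hq).2⟩).2 (M, x)
    rw [List.nil_append] at h2
    change ((run (tab (M, x)) (init (M, x)) Z).getD _ 0) b = _
    rw [h2]
    have h3 := out_eq g w u TL hTL hw hL hum hG M x ((i : ℕ) / w / r)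
      ⟨(i : ℕ) / w % r, (hidx _ hq).2⟩ b
    change (∑ c, decc g _ c • ∑ γ ∈ range G, preTab w u TL L M c γ _
      (addrWord g w u c γ x)) b = _
    rw [h3]
    have h4 : (((i : ℕ) / w / r) * r + (i : ℕ) / w % r) * w + b = i := by
      rw [Nat.div_add_mod', hb, Nat.div_add_mod']
    rw [h4, Finset.sum_range]
    unfold Matrix.mulVec dotProduct
    refine Finset.sum_congr rfl (fun q _ => ?_)
    simp [extM, ext0]

end Pool.Agent.OMV.Rect
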