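import Pool.Agent.Work.MP_0f1f76_lc.Toric.FinalCore
import Pool.Agent.Work.MP_0f1f76_lc.Rect.Param
import Pool.Agent.Work.MP_0f1f76_lc.Rect.Program

/-!
The choice of the parameters in the rectangular case.
-/

namespace Pool.Agent.OMV.Rect

open Toric

lemma count {t r mg s u w G J Q n p D T Z : ℕ} (hw : 16 ≤ w)
    (h1 : t * D ≤ 4 * (r * mg)) (h2 : mg ≤ 4 * (s * u)) (h3 : 16 * s ≤ w) (h4 : u ≤ Z)
    (h5 : G * (u * w) ≤ n + u * w) (h6 : J * (r * w) ≤ p + r * w) (h7 : Q ≤ r * Z)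
    (h8 : r ≤ t) (h8' : t ≤ T) (h9 : 64 * (D * T) ≤ p) (h10 : 64 * (D * Z) ≤ n)
    (h11 : 32 * (Z * T * w) ≤ p * n) (hD : 1 ≤ D) (hZ : 1 ≤ Z) (hT : 1 ≤ T) :
    t * u + t * G * J ≤ p * n ∧
    (2 * (t * G * u) + 2 * (t * G * J) + J * Q + 1) * D ≤ p * n := by
  have hw0 : 0 < w := by omega
  have hTp : 64 * T ≤ p := by
    refine le_trans ?_ h9
    exact Nat.mul_le_mul_left _ (Nat.le_mul_of_pos_left _ hD)
  have hZn : 64 * Z ≤ n := by
    refine le_trans ?_ h10
    exact Nat.mul_le_mul_left _ (Nat.le_mul_of_pos_left _ hD)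
  have hDn : 64 * D ≤ n := by
    refine le_trans ?_ h10
    exact Nat.mul_le_mul_left _ (Nat.le_mul_of_pos_right _ hZ)
  have hrT : r ≤ T := h8.trans h8'
  have hp1 : 1 ≤ p := by omega
  have hn1 : 1 ≤ n := by omega
  -- first term
  have hGu : G * u ≤ 2 * n := by
    have e1 : G * u * w ≤ (n + u) * w := by
      calc G * u * w = G * (u * w) := by ring
        _ ≤ n + u * w := h5
        _ ≤ n * w + u * w := by
          have := Nat.le_mul_of_pos_right n hw0
          omega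
        _ = (n + u) * w := by ring
    have e2 := Nat.le_of_mul_le_mul_right e1 hw0
    omega
  have hA1 : 16 * (2 * (t * G * u) * D) ≤ p * n := by
    calc 16 * (2 * (t * G * u) * D) = 32 * (t * (G * u) * D) := by ring
      _ ≤ 32 * (T * (2 * n) * D) := by gcongr
      _ = 64 * (D * T) * n := by ring
      _ ≤ p * n := Nat.mul_le_mul_right _ h9
  -- second term
  have hX : 4 * (2 * (t * G * J) * D) ≤ p * n := by
    have e1 : 8 * (2 * (t * G * J) * D) * w ≤
        (p * n + 16 * (n * r) + 16 * (p * u) + 16 * (u * r * w)) * w := by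
      have e2 : t * D * 1 ≤ r * (u * w) := by
        calc t * D * 1 = t * D := by ring
          _ ≤ 4 * (r * mg) := h1
          _ ≤ 4 * (r * (4 * (s * u))) := by gcongr
          _ = r * (u * (16 * s)) := by ring
          _ ≤ r * (u * w) := by gcongr
      calc 8 * (2 * (t * G * J) * D) * w = 16 * (t * D * 1) * (G * J * w) := by ring
        _ ≤ 16 * (r * (u * w)) * (G * J * w) := by gcongr
        _ = 16 * (G * (u * w)) * (J * (r * w)) := by ring
        _ ≤ 16 * (n + u * w) * (p + r * w) := by gcongr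
        _ = 16 * (p * n) + (16 * (n * r) + 16 * (p * u) + 16 * (u * r * w)) * w := by ring
        _ ≤ w * (p * n) + (16 * (n * r) + 16 * (p * u) + 16 * (u * r * w)) * w := by gcongr
        _ = _ := by ring
    have e3 := Nat.le_of_mul_le_mul_right e1 hw0
    have e4 : 64 * (n * r) ≤ p * n := by
      calc 64 * (n * r) ≤ 64 * (n * T) := by gcongr
        _ = 64 * T * n := by ring
        _ ≤ p * n := Nat.mul_le_mul_right _ hTp
    have e5 : 64 * (p * u) ≤ p * n := by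
      calc 64 * (p * u) ≤ 64 * (p * Z) := by gcongr
        _ = p * (64 * Z) := by ring
        _ ≤ p * n := Nat.mul_le_mul_left _ hZn
    have e6 : 32 * (u * r * w) ≤ p * n := by
      calc 32 * (u * r * w) ≤ 32 * (Z * T * w) := by gcongr
        _ ≤ p * n := h11
    omega
  -- third term
  have hA3 : 32 * (J * Q * D) ≤ p * n := by
    have e1 : J * r ≤ 2 * p := by
      have e2 : J * r * w ≤ (p + r) * w := by
        calc J * r * w = J * (r * w) := by ring
          _ ≤ p + r * w := h6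
          _ ≤ p * w + r * w := by
            have := Nat.le_mul_of_pos_right p hw0
            omega
          _ = (p + r) * w := by ring
      have e3 := Nat.le_of_mul_le_mul_right e2 hw0
      omega
    calc 32 * (J * Q * D) ≤ 32 * (J * (r * Z) * D) := by gcongr
      _ = 32 * ((J * r) * (D * Z)) := by ring
      _ ≤ 32 * ((2 * p) * (D * Z)) := by gcongr
      _ = p * (64 * (D * Z)) := by ring
      _ ≤ p * n := Nat.mul_le_mul_left _ h10
  have hA4 : 64 * D ≤ p * n := hDn.trans (Nat.le_mul_of_pos_left _ hp1)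
  constructor
  · have e1 : 32 * (t * u) ≤ p * n := by
      calc 32 * (t * u) ≤ 32 * (T * Z) := by gcongr
        _ = 32 * (Z * T * 1) := by ring
        _ ≤ 32 * (Z * T * w) := by gcongr; omega
        _ ≤ p * n := h11
    have e2 : t * G * J ≤ t * G * J * D := Nat.le_mul_of_pos_right (t * G * J) hD
    have e3 : 4 * (2 * (t * G * J) * D) = 8 * (t * G * J * D) := by ring
    omega
  · have e : (2 * (t * G * u) + 2 * (t * G * J) + J * Q + 1) * D =
      2 * (t * G * u) * D + 2 * (t * G * J) * D + J * Q * D + D := by ring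
    rw [e]
    omega

/-- One size, given the number `b`. -/
theorem step_b {b p n w : ℕ} (hb : 4 ≤ b) (hp : 16 * Qt b ≤ Nat.clog 2 p)
    (hn : 2 ^ (b + 19) ≤ Nat.clog 2 n) (hw : w = Nat.clog 2 (max p n)) :
    ∃ (S : ℕ) (P : List Instr) (out : ℕ → ℕ)
      (pre : Matrix (Fin p) (Fin n) (ZMod 2) →ₗ[ZMod 2] (Fin S → Word w → Word w))
      (base : Fin S → Word w → Word w),
      S ≤ p * n ∧ P.length * 2 ^ 2 ^ b ≤ p * n ∧ ∀ M, RComputes P out (base + pre M) M := by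
  obtain ⟨r, mg, s, t, g, Q, hQ, hr, hrt, hs0, hs, hm1, ht, hm, hts, hQ2⟩ := toric_family' b hb
  obtain ⟨wp, hwp⟩ : ∃ wp, wp = Nat.clog 2 p := ⟨_, rfl⟩
  obtain ⟨wn, hwn⟩ : ∃ wn, wn = Nat.clog 2 n := ⟨_, rfl⟩
  rw [← hwp] at hp
  rw [← hwn] at hn
  have hwpw : wp ≤ w := by
    rw [hwp, hw]
    exact Nat.clog_mono_right 2 (le_max_left _ _)
  have hwnw : wn ≤ w := by
    rw [hwn, hw]
    exact Nat.clog_mono_right 2 (le_max_right _ _)
  have hwmax : w ≤ max wp wn := by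
    rw [hwp, hwn, hw]
    rcases le_total p n with h | h
    · rw [max_eq_right h]; exact le_max_right _ _
    · rw [max_eq_left h]; exact le_max_left _ _
  have hE := E_le_Qt b
  have hQb : 2 ^ b ≤ Qt b := by
    unfold Qt
    calc 2 ^ b = 2 ^ b * 1 := (mul_one _).symm
      _ ≤ 2 ^ (b + 17) * (2 * b + 17) :=
        Nat.mul_le_mul (Nat.pow_le_pow_right (by norm_num) (by omega)) (by omega)
  have hQ1000 : 1000 ≤ Qt b := by
    unfold Qt
    calc 1000 ≤ 2 ^ 17 * 1 := by norm_num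
      _ ≤ 2 ^ (b + 17) * (2 * b + 17) :=
        Nat.mul_le_mul (Nat.pow_le_pow_right (by norm_num) (by omega)) (by omega)
  have h15 : 2 ^ (b + 15) = 32768 * 2 ^ b := by rw [pow_add]; ring
  have h19 : 2 ^ (b + 19) = 524288 * 2 ^ b := by rw [pow_add]; ring
  have hb16 : 16 ≤ 2 ^ b := by
    calc 16 = 2 ^ 4 := by norm_num
      _ ≤ 2 ^ b := Nat.pow_le_pow_right (by norm_num) hb
  have hp1 : 1 < p := by
    by_contra hcon
    have : Nat.clog 2 p = 0 := Nat.clog_of_right_le_one (by omega) 2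
    omega
  have hn1 : 1 < n := by
    by_contra hcon
    have : Nat.clog 2 n = 0 := Nat.clog_of_right_le_one (by omega) 2
    omega
  have hpp : 2 ^ (wp - 1) ≤ p := by
    rw [hwp]
    exact (Nat.pow_pred_clog_lt_self (by norm_num) hp1).le
  have hnn : 2 ^ (wn - 1) ≤ n := by
    rw [hwn]
    exact (Nat.pow_pred_clog_lt_self (by norm_num) hn1).le
  have hsw : 16 * s ≤ w := by
    have : s ≤ Qt b := hs
    omega
  have hw16 : 16 ≤ w := by omega
  have hw0 : 0 < w := by omega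
  -- the number of column groups
  set L := w / s with hL
  have hL1 : s * L ≤ w := Nat.mul_div_le w s
  have hL2 : w < s * (L + 1) := Nat.lt_mul_div_succ w hs0
  have hLpos : 1 ≤ L := by
    rw [hL, Nat.one_le_div_iff hs0]
    omega
  have hLw : L ≤ w := Nat.div_le_self w s
  have hL3 : w ≤ 2 * (s * L) := by nlinarith
  set u := L * mg / w with hu
  have hu1 : w * u ≤ L * mg := Nat.mul_div_le _ _
  have hu2 : L * mg < w * (u + 1) := Nat.lt_mul_div_succ _ hw0
  have hLm : w ≤ L * mg := by nlinarith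
  have hupos : 1 ≤ u := by
    rw [hu, Nat.one_le_div_iff hw0]
    exact hLm
  have hu3 : L * mg ≤ 2 * (w * u) := by nlinarith
  have hmu : mg ≤ 4 * (s * u) := by
    have h1 : w * mg ≤ w * (4 * (s * u)) := by
      calc w * mg ≤ 2 * (s * L) * mg := Nat.mul_le_mul_right _ hL3
        _ = 2 * s * (L * mg) := by ring
        _ ≤ 2 * s * (2 * (w * u)) := Nat.mul_le_mul_left _ hu3
        _ = w * (4 * (s * u)) := by ring
    exact Nat.le_of_mul_le_mul_left h1 hw0
  have hum : u ≤ mg := by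
    have h1 : w * u ≤ w * mg := hu1.trans (Nat.mul_le_mul_right _ hLw)
    exact Nat.le_of_mul_le_mul_left h1 hw0
  have ceil : ∀ a q : ℕ, 0 < q → ∃ G : ℕ, a ≤ G * q ∧ G * q ≤ a + q := by
    intro a q hq
    refine ⟨(a + q - 1) / q, ?_, ?_⟩
    · have := Nat.lt_mul_div_succ (a + q - 1) hq
      have e : q * ((a + q - 1) / q + 1) = (a + q - 1) / q * q + q := by ring
      omega
    · have := Nat.div_mul_le_self (a + q - 1) q
      omega
  obtain ⟨G, hG1, hG2⟩ := ceil n (u * w) (Nat.mul_pos hupos hw0)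
  obtain ⟨J, hJ1, hJ2⟩ := ceil p (r * w) (Nat.mul_pos hr hw0)
  obtain ⟨S, P, out, pre, base, hS, hP, hM⟩ := program_of_gadget' g hQ (p := p) (n := n) (w := w)
    (L := L) (u := u) (G := G) (J := J) hw0 hr hL1 (by rw [mul_comm]; exact hu1) hG1 hJ1
  have ht' : t ≤ 2 ^ Qt b := ht.trans (Nat.pow_le_pow_right (by norm_num) hE)
  have hu4 : u ≤ 2 ^ 2 ^ (b + 15) := hum.trans hm
  have h9 : 64 * (2 ^ 2 ^ b * 2 ^ Qt b) ≤ p := by
    calc 64 * (2 ^ 2 ^ b * 2 ^ Qt b) = 2 ^ 6 * 2 ^ 2 ^ b * 2 ^ Qt b := by ring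
      _ = 2 ^ (6 + 2 ^ b + Qt b) := by rw [← pow_add, ← pow_add]
      _ ≤ 2 ^ (wp - 1) := Nat.pow_le_pow_right (by norm_num) (by omega)
      _ ≤ p := hpp
  have h10 : 64 * (2 ^ 2 ^ b * 2 ^ 2 ^ (b + 15)) ≤ n := by
    calc 64 * (2 ^ 2 ^ b * 2 ^ 2 ^ (b + 15)) = 2 ^ 6 * 2 ^ 2 ^ b * 2 ^ 2 ^ (b + 15) := by ring
      _ = 2 ^ (6 + 2 ^ b + 2 ^ (b + 15)) := by rw [← pow_add, ← pow_add]
      _ ≤ 2 ^ (wn - 1) := Nat.pow_le_pow_right (by norm_num) (by omega)
      _ ≤ n := hnn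
  have hlog : ∀ v : ℕ, v ≤ 2 ^ (v / 2 + 1) := by
    intro v
    have h3 : v / 2 < 2 ^ (v / 2) := Nat.lt_two_pow_self
    rw [pow_succ]
    omega
  have h11 : 32 * (2 ^ 2 ^ (b + 15) * 2 ^ Qt b * w) ≤ p * n := by
    have e1 : 32 * 2 ^ Qt b * 2 ^ (wp / 2 + 1) ≤ p := by
      calc 32 * 2 ^ Qt b * 2 ^ (wp / 2 + 1) = 2 ^ 5 * 2 ^ Qt b * 2 ^ (wp / 2 + 1) := by norm_num
        _ = 2 ^ (5 + Qt b + (wp / 2 + 1)) := by rw [← pow_add, ← pow_add]
        _ ≤ 2 ^ (wp - 1) := Nat.pow_le_pow_right (by norm_num) (by omega)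
        _ ≤ p := hpp
    have e2 : 2 ^ 2 ^ (b + 15) * 2 ^ (wn / 2 + 1) ≤ n := by
      calc 2 ^ 2 ^ (b + 15) * 2 ^ (wn / 2 + 1) = 2 ^ (2 ^ (b + 15) + (wn / 2 + 1)) := by
            rw [← pow_add]
        _ ≤ 2 ^ (wn - 1) := Nat.pow_le_pow_right (by norm_num) (by omega)
        _ ≤ n := hnn
    have e3 : w ≤ 2 ^ (wp / 2 + 1) * 2 ^ (wn / 2 + 1) := by
      have h1 := hlog wp
      have h2 := hlog wn
      have h3 : 1 ≤ 2 ^ (wp / 2 + 1) := Nat.one_le_two_pow
      have h4 : 1 ≤ 2 ^ (wn / 2 + 1) := Nat.one_le_two_pow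
      refine hwmax.trans (max_le ?_ ?_)
      · exact h1.trans (Nat.le_mul_of_pos_right _ h4)
      · exact h2.trans (Nat.le_mul_of_pos_left _ h3)
    calc 32 * (2 ^ 2 ^ (b + 15) * 2 ^ Qt b * w)
        ≤ 32 * (2 ^ 2 ^ (b + 15) * 2 ^ Qt b * (2 ^ (wp / 2 + 1) * 2 ^ (wn / 2 + 1))) := by gcongr
      _ = (32 * 2 ^ Qt b * 2 ^ (wp / 2 + 1)) * (2 ^ 2 ^ (b + 15) * 2 ^ (wn / 2 + 1)) := by ring
      _ ≤ p * n := Nat.mul_le_mul e1 e2
  obtain ⟨hc1, hc2⟩ := count hw16 hts hmu hsw hu4 hG2 hJ2 hQ2 hrt ht' h9 h10 h11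
    Nat.one_le_two_pow Nat.one_le_two_pow Nat.one_le_two_pow
  exact ⟨S, P, out, pre, base, hS.trans hc1, (Nat.mul_le_mul_right _ hP).trans hc2, hM⟩

lemma pick {Pd : ℕ → Prop} {b₁ : ℕ} (h : Pd b₁) (hex : ∃ b, b₁ < b ∧ ¬ Pd b) :
    ∃ b, b₁ ≤ b ∧ Pd b ∧ ¬ Pd (b + 1) := by
  classical
  obtain ⟨h1, h2⟩ := Nat.find_spec hex
  set b' := Nat.find hex with hb'
  refine ⟨b' - 1, by omega, ?_, ?_⟩
  · by_contra hcon
    rcases Nat.lt_or_ge b₁ (b' - 1) with h3 | h3
    · exact Nat.find_min hex (m := b' - 1) (by omega) ⟨h3, hcon⟩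
    · have : b' - 1 = b₁ := by omega
      rw [this] at hcon
      exact hcon h
  · rwa [Nat.sub_add_cancel (by omega)]

/-- The exponent. -/
lemma exponent {b p n wp wn : ℕ} (hwp : wp = Nat.clog 2 p) (hwn : wn = Nat.clog 2 n)
    (hwp1 : 1000 ≤ wp) (hwn1 : 1000 ≤ wn) (hp : 16 * Qt b ≤ wp) (_hn : 2 ^ (b + 19) ≤ wn)
    (hmax : ¬ (16 * Qt (b + 1) ≤ wp ∧ 2 ^ (b + 1 + 19) ≤ wn)) :
    1 / 2 ^ 30 * min (Real.log n) (Real.log p / Real.log (Real.log p)) ≤ (2 : ℝ) ^ b := by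
  have hp1 : 1 < p := by
    by_contra hcon
    have : Nat.clog 2 p = 0 := Nat.clog_of_right_le_one (by omega) 2
    omega
  have hn1 : 1 < n := by
    by_contra hcon
    have : Nat.clog 2 n = 0 := Nat.clog_of_right_le_one (by omega) 2
    omega
  have hpp : 2 ^ (wp - 1) ≤ p := by
    rw [hwp]
    exact (Nat.pow_pred_clog_lt_self (by norm_num) hp1).le
  have hpp2 : p ≤ 2 ^ wp := by
    rw [hwp]
    exact Nat.le_pow_clog (by norm_num) p
  have hnn : 2 ^ (wn - 1) ≤ n := by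
    rw [hwn]
    exact (Nat.pow_pred_clog_lt_self (by norm_num) hn1).le
  have hnn2 : n ≤ 2 ^ wn := by
    rw [hwn]
    exact Nat.le_pow_clog (by norm_num) n
  have hl2 : Real.log 2 < 0.6931471808 := Real.log_two_lt_d9
  have hl2' : 0.6931471803 < Real.log 2 := Real.log_two_gt_d9
  have hB : (0 : ℝ) < 2 ^ b := pow_pos two_pos b
  by_cases h1 : 16 * Qt (b + 1) ≤ wp
  · -- the columns are the bottleneck
    have h2 : wn < 2 ^ (b + 20) := by
      by_contra hcon
      push Not at hcon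
      exact hmax ⟨h1, by rw [show b + 1 + 19 = b + 20 from by ring]; exact hcon⟩
    have h3 : Real.log n ≤ wn * Real.log 2 := (log_bounds n wn hwn1 hnn hnn2).2
    have h4 : (wn : ℝ) < 2 ^ b * 1048576 := by
      have h5 : wn < 2 ^ b * 1048576 := by
        rw [pow_add] at h2
        exact h2
      exact_mod_cast h5
    calc 1 / 2 ^ 30 * min (Real.log n) (Real.log p / Real.log (Real.log p))
        ≤ 1 / 2 ^ 30 * Real.log n := by
          apply mul_le_mul_of_nonneg_left (min_le_left _ _) (by positivity)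
      _ ≤ 1 / 2 ^ 30 * (wn * Real.log 2) := by
          apply mul_le_mul_of_nonneg_left h3 (by positivity)
      _ ≤ 1 / 2 ^ 30 * (2 ^ b * 1048576 * 1) := by
          apply mul_le_mul_of_nonneg_left _ (by positivity)
          apply mul_le_mul h4.le (by linarith) (by linarith) (by positivity)
      _ = 2 ^ b * (1 / 1024) := by ring
      _ ≤ 2 ^ b := mul_le_of_le_one_right hB.le (by norm_num)
  · -- the rows are the bottleneck
    push Not at h1
    have hwb : wp ≤ 2 ^ (b + 22) * (2 * b + 19) := by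
      have h2 : 16 * Qt (b + 1) = 2 ^ (b + 22) * (2 * b + 19) := by
        unfold Qt
        rw [show b + 22 = (b + 1 + 17) + 4 from rfl, pow_add 2 (b + 1 + 17) 4]
        ring
      omega
    have hbw : 2 ^ b ≤ wp := by
      have h2 : 2 ^ b * 1 ≤ 2 ^ (b + 17) * (2 * b + 17) :=
        Nat.mul_le_mul (Nat.pow_le_pow_right (by norm_num) (by omega)) (by omega)
      have h3 : Qt b = 2 ^ (b + 17) * (2 * b + 17) := rfl
      omega
    obtain ⟨hℓ, he, -⟩ := exponent_bound p wp b hwp1 hpp hpp2 hbw hwb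
    calc 1 / 2 ^ 30 * min (Real.log n) (Real.log p / Real.log (Real.log p))
        ≤ 1 / 2 ^ 30 * (Real.log p / Real.log (Real.log p)) := by
          apply mul_le_mul_of_nonneg_left (min_le_right _ _) (by positivity)
      _ = Real.log p * (1 / 2 ^ 30 / Real.log (Real.log p)) := by ring
      _ ≤ 2 ^ b * Real.log 2 := he
      _ ≤ 2 ^ b * 1 := by
          apply mul_le_mul_of_nonneg_left (by linarith) hB.le
      _ = 2 ^ b := mul_one _

theorem romv_final : ∃ (c : ℝ) (_ : 0 < c) (n₀ : ℕ), ∀ m n : ℕ, n₀ ≤ m → n₀ ≤ n →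
    ∃ (S : ℕ) (P : List Instr) (out : ℕ → ℕ)
      (pre : Matrix (Fin m) (Fin n) (ZMod 2) →ₗ[ZMod 2]
        (Fin S → Word (Nat.clog 2 (max m n)) → Word (Nat.clog 2 (max m n))))
      (base : Fin S → Word (Nat.clog 2 (max m n)) → Word (Nat.clog 2 (max m n))),
      S ≤ m * n ∧
      (P.length : ℝ) ≤
        m * n / 2 ^ (c * min (Real.log n) (Real.log m / Real.log (Real.log m))) ∧
      ∀ M, RComputes P out (base + pre M) M := by
  obtain ⟨W, hW⟩ : ∃ W, W = 16 * Qt 4 := ⟨_, rfl⟩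
  have hWv : W = 16 * (2 ^ 21 * 25) := by
    rw [hW]
    rfl
  refine ⟨1 / 2 ^ 30, by positivity, 2 ^ W, fun m n hm hn => ?_⟩
  have hwm : W ≤ Nat.clog 2 m := by
    have := Nat.clog_mono_right 2 hm
    rwa [Nat.clog_pow 2 _ (by norm_num)] at this
  have hwn : W ≤ Nat.clog 2 n := by
    have := Nat.clog_mono_right 2 hn
    rwa [Nat.clog_pow 2 _ (by norm_num)] at this
  obtain ⟨b, hb4, ⟨hb1, hb2⟩, hb3⟩ := pick
    (Pd := fun b => 16 * Qt b ≤ Nat.clog 2 m ∧ 2 ^ (b + 19) ≤ Nat.clog 2 n) (b₁ := 4)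
    ⟨by omega, by
      have : 2 ^ (4 + 19) ≤ W := by rw [hWv]; norm_num
      omega⟩
    (by
      refine ⟨Nat.clog 2 m + 5, by omega, fun h => ?_⟩
      have := Qt_ge (Nat.clog 2 m + 5)
      omega)
  obtain ⟨S, P, out, pre, base, hS, hP, hM⟩ := step_b hb4 hb1 hb2 rfl
  have hW1000 : 1000 ≤ W := by rw [hWv]; norm_num
  have hexp := exponent rfl rfl (hW1000.trans hwm) (hW1000.trans hwn) hb1 hb2 hb3
  refine ⟨S, P, out, pre, base, hS, ?_, hM⟩
  rw [le_div_iff₀ (Real.rpow_pos_of_pos two_pos _)]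
  calc (P.length : ℝ) * 2 ^ (1 / 2 ^ 30 * min (Real.log n) (Real.log m / Real.log (Real.log m)))
      ≤ (P.length : ℝ) * 2 ^ ((2 : ℝ) ^ b) := by
        apply mul_le_mul_of_nonneg_left _ (Nat.cast_nonneg _)
        exact Real.rpow_le_rpow_of_exponent_le (by norm_num) hexp
    _ = (P.length : ℝ) * 2 ^ (2 ^ b) := by
        congr 1
        have : ((2 : ℝ) ^ b) = ((2 ^ b : ℕ) : ℝ) := by push_cast; rfl
        rw [this, Real.rpow_natCast]
    _ ≤ m * n := by exact_mod_cast hP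

end Pool.Agent.OMV.Rect
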